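import Pool.Agent.Helper28.MT.Goals2

/-!
# Project MT, second version: packet MT2-STEPW (real weights)

`G_STEPW` from `G_STEPN`: the real weights `w` are replaced by their running maxima, multiplied by a
large number `Q` and rounded up.
-/

set_option autoImplicit false

namespace Pool.Agent.Helper10.MT2

open Finset
open Pool.Agent.Helper55.Rota
open Pool.Agent.Helper28.MT
open Pool.Agent.Helper28.MT2

/-- The running maximum `max (w 0, .., w (l - 1))` of the weights (`0` for `l = 0`). -/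
noncomputable def rmax (w : ℕ → ℝ) : ℕ → ℝ
  | 0 => 0
  | l + 1 => max (rmax w l) (w l)

theorem rmax_mono (w : ℕ → ℝ) : Monotone (rmax w) :=
  monotone_nat_of_le_succ (fun l => le_max_left (rmax w l) (w l))

theorem exists_scale (s : ℕ) (w : ℕ → ℝ) (hw : ∀ l, 0 < w l) :
    ∃ Q : ℝ, 0 < Q ∧ ∀ i ≤ s, 1 ≤ Q * w i := by
  refine ⟨∑ i ∈ range (s + 1), (w i)⁻¹, ?_, ?_⟩
  · exact Finset.sum_pos (fun i _ => inv_pos.mpr (hw i)) ⟨0, by simp⟩
  · intro i hi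
    have h1 : (w i)⁻¹ ≤ ∑ i ∈ range (s + 1), (w i)⁻¹ :=
      Finset.single_le_sum (f := fun i => (w i)⁻¹) (fun i _ => (inv_pos.mpr (hw i)).le)
        (by simp; omega)
    calc (1 : ℝ) = (w i)⁻¹ * w i := by rw [inv_mul_cancel₀ (hw i).ne']
      _ ≤ _ := mul_le_mul_of_nonneg_right h1 (hw i).le

theorem mt2_stepw : G_STEPN → G_STEPW := by
  intro hN α _ _ R n k h s b f j V w hk hs hj hR hpos hLab hV hVt hw
  obtain ⟨Q, hQ, hQw⟩ := exists_scale s w hw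
  obtain ⟨T, hT1, hT2, hT3, hT4⟩ := hN α R n k h s b f j V (fun l => ⌈Q * rmax w l⌉₊) hk hs hj hR
    hpos hLab hV hVt (by simp [rmax])
    (fun a c hac => Nat.ceil_mono (mul_le_mul_of_nonneg_left (rmax_mono w hac) hQ.le))
  refine ⟨T, hT1, hT2, hT3, ?_⟩
  have hlow : ∀ l, Q * w l ≤ ((⌈Q * rmax w (l + 1)⌉₊ : ℕ) : ℝ) := fun l =>
    le_trans (mul_le_mul_of_nonneg_left (le_max_right (rmax w l) (w l)) hQ.le) (Nat.le_ceil _)
  have hup : ∀ l ∈ range (s + 1),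
      ((⌈Q * rmax w (l + 1)⌉₊ - ⌈Q * rmax w l⌉₊ : ℕ) : ℝ) ≤ 2 * (Q * w l) := by
    intro l hl
    have hl' : l ≤ s := by have := mem_range.mp hl; omega
    have h1 := hQw l hl'
    have h0 : 0 < Q * w l := mul_pos hQ (hw l)
    rcases le_total (w l) (rmax w l) with hc | hc
    · have e : rmax w (l + 1) = rmax w l := max_eq_left hc
      rw [e, Nat.sub_self]
      push_cast
      linarith
    · have e : rmax w (l + 1) = w l := max_eq_right hc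
      rw [e]
      have h2 : ((⌈Q * w l⌉₊ : ℕ) : ℝ) < Q * w l + 1 := Nat.ceil_lt_add_one h0.le
      have h3 : ((⌈Q * w l⌉₊ - ⌈Q * rmax w l⌉₊ : ℕ) : ℝ) ≤ ((⌈Q * w l⌉₊ : ℕ) : ℝ) := by
        exact_mod_cast Nat.sub_le _ _
      linarith
  have hN' : (k : ℝ) * ∑ l ∈ range (s + 1), ((⌈Q * rmax w (l + 1)⌉₊ : ℕ) : ℝ) *
      ((T ∩ rsv s (l + 1) (j / 2 ^ (l + 1)) f).card : ℝ) ≤
      8 * ∑ l ∈ range (s + 1), ((⌈Q * rmax w (l + 1)⌉₊ - ⌈Q * rmax w l⌉₊ : ℕ) : ℝ) *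
        (Lth h k s l : ℝ) := by
    exact_mod_cast hT4
  have hL : Q * ((k : ℝ) * ∑ l ∈ range (s + 1),
        w l * ((T ∩ rsv s (l + 1) (j / 2 ^ (l + 1)) f).card : ℝ)) ≤
      (k : ℝ) * ∑ l ∈ range (s + 1), ((⌈Q * rmax w (l + 1)⌉₊ : ℕ) : ℝ) *
      ((T ∩ rsv s (l + 1) (j / 2 ^ (l + 1)) f).card : ℝ) := by
    rw [mul_left_comm, Finset.mul_sum]
    refine mul_le_mul_of_nonneg_left (Finset.sum_le_sum fun l _ => ?_) (Nat.cast_nonneg k)
    rw [← mul_assoc]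
    exact mul_le_mul_of_nonneg_right (hlow l) (Nat.cast_nonneg _)
  have hR' : 8 * ∑ l ∈ range (s + 1), ((⌈Q * rmax w (l + 1)⌉₊ - ⌈Q * rmax w l⌉₊ : ℕ) : ℝ) *
        (Lth h k s l : ℝ) ≤ Q * (16 * ∑ l ∈ range (s + 1), w l * (Lth h k s l : ℝ)) := by
    have : ∑ l ∈ range (s + 1), ((⌈Q * rmax w (l + 1)⌉₊ - ⌈Q * rmax w l⌉₊ : ℕ) : ℝ) *
        (Lth h k s l : ℝ) ≤ ∑ l ∈ range (s + 1), (2 * Q) * (w l * (Lth h k s l : ℝ)) := by
      refine Finset.sum_le_sum fun l hl => ?_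
      have := mul_le_mul_of_nonneg_right (hup l hl) (Nat.cast_nonneg (α := ℝ) (Lth h k s l))
      linarith
    rw [← Finset.mul_sum] at this
    linarith
  exact le_of_mul_le_mul_left (hL.trans (hN'.trans hR')) hQ

end Pool.Agent.Helper10.MT2
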